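import Pool.Agent.helper88.RQ2.Spec

/-!
# Row GTR of project RQ (MP_bb0bb6_co, Q2)
-/

set_option autoImplicit false

open Set Matroid RadonMin

namespace RadonQ2

lemma GTR_equiv {V : Type} [AddCommGroup V] [Module ℝ V] [DecidableEq V] {x y z : V}
    (hxy : x ≠ y) (hyz : y ≠ z) (hxz : x ≠ z) :
    AffineIndependent ℝ (fun w : ({x, y, z} : Finset V) => (w : V)) ↔
      AffineIndependent ℝ ![x, y, z] := by
  have hmem : ∀ i : Fin 3, ![x, y, z] i ∈ ({x, y, z} : Finset V) := by
    intro i
    fin_cases i <;> simp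
  let f : Fin 3 → ({x, y, z} : Finset V) := fun i => ⟨![x, y, z] i, hmem i⟩
  have hinj : Function.Injective f := by
    intro i j hij
    have h := congrArg Subtype.val hij
    change ![x, y, z] i = ![x, y, z] j at h
    fin_cases i <;> fin_cases j <;> simp_all
  have hsurj : Function.Surjective f := by
    rintro ⟨w, hw⟩
    simp only [Finset.mem_insert, Finset.mem_singleton] at hw
    rcases hw with rfl | rfl | rfl
    · exact ⟨0, rfl⟩
    · exact ⟨1, rfl⟩
    · exact ⟨2, rfl⟩
  exact (affineIndependent_equiv (Equiv.ofBijective f ⟨hinj, hsurj⟩)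
    (p := fun w : ({x, y, z} : Finset V) => (w : V))).symm

theorem GTR_proof (hGAI : GAI_stmt) : GTR_stmt := by
  intro V _ _ _ X x y z hx hy hz hxy hyz hxz
  have hB : ({x, y, z} : Finset V) ⊆ X := by
    intro w hw
    simp only [Finset.mem_insert, Finset.mem_singleton] at hw
    rcases hw with rfl | rfl | rfl <;> assumption
  have hcoe : (({x, y, z} : Finset V) : Set V) = {x, y, z} := by push_cast; rfl
  unfold Tri Col
  rw [← hcoe, fcircuit_iff hB]
  have h1 : AffInd ({x, y, z} : Finset V) ↔ ¬ Collinear ℝ (({x, y, z} : Finset V) : Set V) := by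
    rw [hGAI, GTR_equiv hxy hyz hxz, affineIndependent_iff_not_collinear_set, hcoe]
  constructor
  · rintro ⟨h2, -⟩
    by_contra h3
    exact h2 (h1.mpr h3)
  · intro h2
    refine ⟨fun h3 => (h1.mp h3) h2, fun w hw => ?_⟩
    have h4 : (({x, y, z} : Finset V).erase w).card = 2 := by
      rw [Finset.card_erase_of_mem hw, Finset.card_eq_three.mpr ⟨x, y, z, hxy, hxz, hyz, rfl⟩]
    have h5 : ({x, y, z} : Finset V).erase w ⊆ X := (Finset.erase_subset _ _).trans hB
    have h6 := (affMat_simp X).indep_of_ncard_le (X := (({x, y, z} : Finset V).erase w : Finset V))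
      (by exact_mod_cast h5) (by rw [ncard_coe_finset, h4])
    exact ((affMat_indep X _).mp h6).2

end RadonQ2
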